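import Pool.Agent.L7h82.RL.Fin
import Pool.Agent.L7h15.SQ.Tow

/-!
# Project TW: the quadratic twists `E_d : y² = x³ + a d² x + b d³`, `d ∈ F`, `F/K` abelian, of a curve `E/K`:
statements of the independent parts

`K` is imaginary quadratic of class number one (`IQ K σ δ`), `E : y² = x³ + a x + b` over `K` with a Bianchi
newform (`BF σ δ n c`), `K ⊂ F ⊂ M` number fields with `M/K` abelian, `[M : F] = 2`, `M = F(s)`, `s² = d ∈ 𝓞 F`.
`A` is the set of the characters of `Gal(M/K)` which are not trivial on `Gal(M/F)`.  `L(E_d/F, s)` is the product of the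
`L(f ⊗ χ ψ, s)`, `ψ ∈ A`, up to the factors at finitely many places; the rest of the proof is that of `OneConstant`
(`L7h82/RL`), with `A` in place of the whole group.
-/

set_option autoImplicit false
set_option linter.unusedSectionVars false

namespace Pool.Agent.L7h81.TW

open NumberField IsDedekindDomain Filter Topology
open Pool.Agent.K4H55.BI (rs Prd ee kap fv MF IQ BF ordK gen nu)
open Pool.Agent.K4H55.BK (Vals)
open Pool.Agent.K4H55.CX (br efx facF ord)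
open Pool.Agent.W189.NF (aV eV)
open Pool.Agent.L7h15.BK (cv npt pol)
open Pool.Agent.L7h15.SQ (up)
open Pool.Agent.L7h82.RL (RC PK CentralValue IsOm)
open scoped ComplexConjugate

/-- **TPT** (finite fields).  For each `x` put `t = x³ + a x + b`; the points of the twist with first coordinate `d x` are
the `y` with `y² = d³ t`.  If `d = e²` then `y = e³ y'`.  If `d` is not a square, then `#{y : y² = d³ t} + #{y : y² = t} = 2` for every
`t` (`quadraticChar`). -/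
def S_TPT : Prop := ∀ (k : Type) [Field k] [Finite k], (2 : k) ≠ 0 → ∀ a b d : k, d ≠ 0 →
  (IsSquare d → npt (a * d ^ 2) (b * d ^ 3) = npt a b) ∧
  (¬ IsSquare d → npt (a * d ^ 2) (b * d ^ 3) + npt a b = 2 * Nat.card k)

/-- **SPLIT** (places of a quadratic extension which do not divide `2 d`).  Sketch: let `w` be above `u`, `c` the nontrivial
automorphism, `c s = -s`; `c s - s = -2 s ∉ w`, so the inertia group of `w` is trivial.  A Frobenius `τ ∈ Gal(M/F)` at `w`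
(`L7h15.BK.exists_frob`) maps `s` to `s ^ q ≡ s d^((q-1)/2)` modulo `w`, `q = N(u)`; so `τ = 1` iff `d` is a square modulo `u`
(`FiniteField.isSquare_iff` or Euler's criterion).  The degree of `w` is the order of `τ`, and `e f g = 2`
(`L7h15/BK/{Cls,Dec}.lean`: `norm_above`, `card_above`, `frob_pow`, `card_values'` are for general base fields). -/
def S_SPLIT : Prop := ∀ (F M : Type) [Field F] [NumberField F] [Field M] [NumberField M] [Algebra F M]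
  [IsGalois F M], Module.finrank F M = 2 → ∀ (d : 𝓞 F) (s : 𝓞 M), s ^ 2 = algebraMap (𝓞 F) (𝓞 M) d →
  (∀ y : F, algebraMap F M y ≠ (s : M)) → ∀ u : HeightOneSpectrum (𝓞 F), 2 * d ∉ u.asIdeal →
  (IsSquare (Ideal.Quotient.mk u.asIdeal d) →
    Nat.card {w : HeightOneSpectrum (𝓞 M) // w.asIdeal.comap (algebraMap (𝓞 F) (𝓞 M)) = u.asIdeal} = 2 ∧
    ∀ w : HeightOneSpectrum (𝓞 M), w.asIdeal.comap (algebraMap (𝓞 F) (𝓞 M)) = u.asIdeal →
      Ideal.absNorm w.asIdeal = Ideal.absNorm u.asIdeal) ∧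
  (¬ IsSquare (Ideal.Quotient.mk u.asIdeal d) →
    Nat.card {w : HeightOneSpectrum (𝓞 M) // w.asIdeal.comap (algebraMap (𝓞 F) (𝓞 M)) = u.asIdeal} = 1 ∧
    ∀ w : HeightOneSpectrum (𝓞 M), w.asIdeal.comap (algebraMap (𝓞 F) (𝓞 M)) = u.asIdeal →
      Ideal.absNorm w.asIdeal = Ideal.absNorm u.asIdeal ^ 2)

open Classical in
/-- **LOC** (the factors at the places above `u`).  `q = N(v)`, `N(u) = q ^ f`.  `fac_eq` (`L7h15/BK/Fac.lean`) and `facF`:
`facF n c v (q ^ f) s = (1 - a_u T + q^f T²)⁻¹`, `a_u = luc (c v) q f = α^f + β^f` (`luc_eq`, `exists_ab`), so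
`facF n c v (q ^ (2 f)) s` has `a = a_u² - 2 q ^ f`, and is `((1 - a_u T + q^f T²)(1 + a_u T + q^f T²))⁻¹`.  By `loc_good` (for
`F`, `u`, `a d²`, `b d³`) and `S_TPT`, `a_u(E_d) = a_u` or `-a_u`; `npt` over `𝓞 F ⧸ u` is in `npt_above`, `fac_eq`. -/
def S_LOC : Prop := S_TPT → S_SPLIT → ∀ (K F M : Type) [Field K] [NumberField K] [IsPrincipalIdealRing (𝓞 K)]
  [Field F] [NumberField F] [Algebra K F] [Field M] [NumberField M] [Algebra K M] [Algebra F M] [IsScalarTower K F M]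
  [IsGalois F M] (n a b : 𝓞 K) (c : Ideal (𝓞 K) → ℂ),
  (∀ v : HeightOneSpectrum (𝓞 K), c v.asIdeal = (aV (cv (a : K) (b : K)) v : ℂ) ∧
    (eV (cv (a : K) (b : K)) v : ℂ) = if n ∈ v.asIdeal then 0 else (Ideal.absNorm v.asIdeal : ℂ)) →
  Module.finrank F M = 2 → ∀ (d : 𝓞 F) (t : 𝓞 M), t ^ 2 = algebraMap (𝓞 F) (𝓞 M) d →
  (∀ y : F, algebraMap F M y ≠ (t : M)) → ∀ (v : HeightOneSpectrum (𝓞 K)) (u : HeightOneSpectrum (𝓞 F)),
  u.asIdeal.comap (algebraMap (𝓞 K) (𝓞 F)) = v.asIdeal → 2 * (4 * a ^ 3 + 27 * b ^ 2) ∉ v.asIdeal →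
  2 * d ∉ u.asIdeal → (∃ f : ℕ, Ideal.absNorm u.asIdeal = Ideal.absNorm v.asIdeal ^ f) → ∀ s : ℂ,
  ∏ᶠ w : {w : HeightOneSpectrum (𝓞 M) // w.asIdeal.comap (algebraMap (𝓞 F) (𝓞 M)) = u.asIdeal},
      facF n c v (Ideal.absNorm w.1.asIdeal) s =
    facF n c v (Ideal.absNorm u.asIdeal) s *
      (pol (cv (algebraMap K F (a : K) * (d : F) ^ 2) (algebraMap K F (b : K) * (d : F) ^ 3)) u s)⁻¹

open Classical in
/-- **LST** (`L7h60/RL/Ls.lean`, `s_LS`, with the set `A` of the characters and the curve `E_d`).  Choose `0 ≠ D ∈ 𝓞 K`, a multiple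
of `d` in `𝓞 F`; the bad places are those which contain `2 (4a³ + 27b²) 2 D`.  At a good place `v`: `∏_{w|v} facF = ∏_ψ efx`
(`above_prod` for `M`), `∏_{u|v} facF = ∏_{ψ ∉ A} efx` (`above_prod` for `F`: the characters `ψ ∉ A` are the
inflations of the characters of `Gal(F/K)`, see `tower` in `L7h15/SQ/Tow.lean`, with `dsc`, `rc_unique`), and the `w` above `v` are grouped
by the `u` below them (`S_LOC`); so `∏_{ψ ∈ A} efx = ∏_{u|v} (pol E_d u s)⁻¹`.  The factors at the bad places at `s = 1` are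
nonzero rational numbers: `pol_one`, and `S_RAT` for `A`, which is stable under `ψ ↦ ψ ^ k`, `k` prime to the order.  The
end (continuation, uniqueness) as in `s_LS`. -/
def S_LST : Prop := S_LOC → ∀ (K F M : Type) [Field K] [NumberField K] [IsPrincipalIdealRing (𝓞 K)]
  [Field F] [NumberField F] [Algebra K F] [Field M] [NumberField M] [Algebra K M] [Algebra F M] [IsScalarTower K F M]
  [IsGalois K F] [IsGalois K M] [Fintype ((M ≃ₐ[K] M) →* ℂˣ)] (σ : K →+* ℂ) (δ : K)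
  (n a b : 𝓞 K) (c : Ideal (𝓞 K) → ℂ), IQ K σ δ → 4 * a ^ 3 + 27 * b ^ 2 ≠ 0 →
  (∀ v : HeightOneSpectrum (𝓞 K), c v.asIdeal = (aV (cv (a : K) (b : K)) v : ℂ) ∧
    (eV (cv (a : K) (b : K)) v : ℂ) = if n ∈ v.asIdeal then 0 else (Ideal.absNorm v.asIdeal : ℂ)) →
  (∀ s t : M ≃ₐ[K] M, s * t = t * s) → Module.finrank F M = 2 → ∀ (d : 𝓞 F) (t : 𝓞 M), d ≠ 0 →
  t ^ 2 = algebraMap (𝓞 F) (𝓞 M) d → (∀ y : F, algebraMap F M y ≠ (t : M)) →
  ∀ (𝔣 : ((M ≃ₐ[K] M) →* ℂˣ) → Ideal (𝓞 K)) (χ : ((M ≃ₐ[K] M) →* ℂˣ) → 𝓞 K → ℂ),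
  (∀ ψ, RC ψ (𝔣 ψ) (χ ψ)) → ∀ A : Finset ((M ≃ₐ[K] M) →* ℂˣ),
  (∀ ψ, ψ ∈ A ↔ ∃ g : M ≃ₐ[F] M, ψ (up K F g) ≠ 1) → ∀ G : ((M ≃ₐ[K] M) →* ℂˣ) → ℂ → ℂ,
  (∀ ψ ∈ A, Differentiable ℂ (G ψ)) →
  (∀ ψ ∈ A, ∀ s : ℂ, 2 < s.re → HasProd (efx n c (χ ψ) s) (G ψ s)) →
  ∃ r : ℚ, r ≠ 0 ∧ ∀ x : ℂ,
    CentralValue (cv (algebraMap K F (a : K) * (d : F) ^ 2) (algebraMap K F (b : K) * (d : F) ^ 3)) x ↔
      x = (r : ℂ) * ∏ ψ ∈ A, G ψ 1

/-- **DSQ** (discriminants).  Let `b` be a `ℚ`-basis of `F`; then `b_i`, `b_i s` is a `ℚ`-basis of `M`, its trace matrix is the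
block diagonal matrix of `2 T`, `2 T_d`, `T = (Tr b_i b_j)`, `T_d = (Tr d b_i b_j)`, `det T_d = N(d) det T` (`T_d` is
the product of the matrix of the multiplication by `d` and `T`); the discriminant of any `ℚ`-basis is that of the field times a
rational square (`Algebra.discr_of_matrix_vecMul`). -/
def S_DSQ : Prop := ∀ (F M : Type) [Field F] [NumberField F] [Field M] [NumberField M] [Algebra F M],
  Module.finrank F M = 2 → ∀ (d : F) (s : M), s ^ 2 = algebraMap F M d → (∀ y : F, algebraMap F M y ≠ s) →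
  ∃ ρ : ℚ, 0 < ρ ∧ |(discr M : ℝ)| = (discr F : ℝ) ^ 2 * |((Algebra.norm ℚ d : ℚ) : ℝ)| * (ρ : ℝ) ^ 2

/-- **OMT** (periods of the twist; `om_eq` in `L7h82/RL/Fin.lean`).  At a place `w` with embedding `e`: take `μ` with
`μ² = (e d)⁻¹`; the pair `(μ ω₁, μ ω₂)` of `L0` (or of its conjugate) has `g₂ μ⁻⁴ = g₂ (e d)²`, `g₃ μ⁻⁶ = g₃ (e d)³`, and
`|Im(μ ω₁ conj(μ ω₂))| = |Im(ω₁ conj ω₂)| / |e d|`; use `L7h65.RL2.per`; `∏_w |e d|² = |N(d)|`
(`InfinitePlace.prod_eq_abs_norm`), all places are complex. -/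
def S_OMT : Prop := ∀ (K : Type) [Field K] [NumberField K] (σ : K →+* ℂ) (δ : K), IQ K σ δ → ∀ (a b : K)
  (L0 : PeriodPair), L0.g₂ = -4 * σ a → L0.g₃ = -4 * σ b → ∀ (F : Type) [Field F] [NumberField F] [Algebra K F]
  (d : F), d ≠ 0 → ∀ Ω : ℝ, IsOm F (algebraMap K F a * d ^ 2) (algebraMap K F b * d ^ 3) Ω →
  ∃ s : ℝ, (s = 1 ∨ s = -1) ∧ Ω = s * (√|(discr F : ℝ)| *
    |(L0.ω₁ * conj L0.ω₂).im| ^ Module.finrank K F / √|((Algebra.norm ℚ d : ℚ) : ℝ)|)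

/-- **OMX**: conversely, if `L0` exists then `Ω` exists (the same pairs; `om_ex` in `L7h81/UR/Fin.lean`), and if an `Ω` exists for
`E_d/F` then an `L0` as in OMT exists. -/
def S_OMX : Prop := ∀ (K : Type) [Field K] [NumberField K] (σ : K →+* ℂ) (δ : K), IQ K σ δ → ∀ (a b : K)
  (F : Type) [Field F] [NumberField F] [Algebra K F] (d : F), d ≠ 0 →
  ((∃ Ω : ℝ, IsOm F (algebraMap K F a * d ^ 2) (algebraMap K F b * d ^ 3) Ω) ↔
    ∃ L0 : PeriodPair, L0.g₂ = -4 * σ a ∧ L0.g₃ = -4 * σ b)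

end Pool.Agent.L7h81.TW
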