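import Pool.Agent.L7h81.TW.Stm

/-!
# Project TW: the discriminant of `F(√d)` (DSQ)
-/

set_option autoImplicit false
set_option linter.unusedSectionVars false

namespace Pool.Agent.L7h81.TW

open NumberField Module Matrix

section alg

variable {F M : Type} [Field F] [Field M] [Algebra F M]

lemma trace_sqrt (h2 : finrank F M = 2) {d : F} {s : M} (hs : s ^ 2 = algebraMap F M d)
    (hn : ∀ y : F, algebraMap F M y ≠ s) : Algebra.trace F M s = 0 := by
  classical
  have li : LinearIndependent F ![(1 : M), s] := by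
    rw [LinearIndependent.pair_iff]
    intro a b hab
    have hb : b = 0 := by
      by_contra hb
      apply hn (-(a / b))
      have h1 : algebraMap F M b ≠ 0 := by simpa using hb
      rw [Algebra.smul_def, Algebra.smul_def, mul_one] at hab
      rw [map_neg, map_div₀]
      field_simp
      linear_combination -hab
    refine ⟨?_, hb⟩
    rw [hb, zero_smul, add_zero, Algebra.smul_def, mul_one] at hab
    simpa using hab
  let c := basisOfLinearIndependentOfCardEqFinrank li (by rw [h2]; rfl)
  have c0 : c 0 = 1 := by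
    simp [c]
  have c1 : c 1 = s := by
    simp [c]
  rw [Algebra.trace_eq_matrix_trace c, Matrix.trace, Fin.sum_univ_two, Matrix.diag_apply,
    Matrix.diag_apply, Algebra.leftMulMatrix_eq_repr_mul, Algebra.leftMulMatrix_eq_repr_mul, c0, c1,
    mul_one]
  have e1 : c.repr s 0 = 0 := by
    rw [← c1, c.repr_self]
    simp
  have e2 : c.repr (s * s) 1 = 0 := by
    have h3 : s * s = d • c 0 := by
      rw [c0, Algebra.smul_def, mul_one, ← hs, pow_two]
    rw [h3, map_smul, c.repr_self]
    simp
  rw [e1, e2, add_zero]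

end alg

theorem s_DSQ' : S_DSQ := by
  intro F M _ _ _ _ _ h2 d s hs hn
  classical
  have hd : d ≠ 0 := by
    rintro rfl
    have : s = 0 := by simpa using hs
    exact hn 0 (by rw [this, map_zero])
  have : FiniteDimensional F M := FiniteDimensional.of_finrank_pos (by omega)
  have : IsScalarTower ℚ F M := inferInstance
  let B := integralBasis F
  have htr : ∀ x : F, Algebra.trace ℚ M (algebraMap F M x) = 2 * Algebra.trace ℚ F x := by
    intro x
    rw [← Algebra.trace_trace (S := F), Algebra.trace_algebraMap, h2, map_nsmul, nsmul_eq_mul]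
    norm_num
  have htr1 : ∀ x : F, Algebra.trace ℚ M (algebraMap F M x * s) = 0 := by
    intro x
    rw [← Algebra.trace_trace (S := F), ← Algebra.smul_def, map_smul, trace_sqrt h2 hs hn, smul_zero,
      map_zero]
  let v : Free.ChooseBasisIndex ℤ (𝓞 F) ⊕ Free.ChooseBasisIndex ℤ (𝓞 F) → M :=
    Sum.elim (fun i => algebraMap F M (B i)) (fun i => algebraMap F M (B i) * s)
  have hT : Algebra.traceMatrix ℚ v = Matrix.fromBlocks ((2 : ℚ) • Algebra.traceMatrix ℚ B) 0 0
      ((2 : ℚ) • ((Algebra.leftMulMatrix B d)ᵀ * Algebra.traceMatrix ℚ B)) := by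
    ext i j
    rw [Algebra.traceMatrix_apply, Algebra.traceForm_apply]
    rcases i with i | i <;> rcases j with j | j
    · simp only [v, Sum.elim_inl, Matrix.fromBlocks_apply₁₁, Matrix.smul_apply, smul_eq_mul]
      rw [← map_mul, htr, Algebra.traceMatrix_apply, Algebra.traceForm_apply]
    · simp only [v, Sum.elim_inl, Sum.elim_inr, Matrix.fromBlocks_apply₁₂, Matrix.zero_apply]
      rw [← mul_assoc, ← map_mul, htr1]
    · simp only [v, Sum.elim_inl, Sum.elim_inr, Matrix.fromBlocks_apply₂₁, Matrix.zero_apply]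
      rw [mul_right_comm, ← map_mul, htr1]
    · simp only [v, Sum.elim_inr, Matrix.fromBlocks_apply₂₂, Matrix.smul_apply, smul_eq_mul]
      have e1 : algebraMap F M (B i) * s * (algebraMap F M (B j) * s) =
          algebraMap F M ((d * B i) * B j) := by
        rw [map_mul, map_mul, ← hs]
        ring
      rw [e1, htr]
      congr 1
      have e2 : d * B i = ∑ k, Algebra.leftMulMatrix B d k i • B k := by
        conv_lhs => rw [← B.sum_repr (d * B i)]
        exact Finset.sum_congr rfl fun k _ => by rw [Algebra.leftMulMatrix_eq_repr_mul]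
      rw [e2, Finset.sum_mul, map_sum, Matrix.mul_apply]
      refine Finset.sum_congr rfl fun k _ => ?_
      rw [smul_mul_assoc, map_smul, smul_eq_mul, Matrix.transpose_apply, Algebra.traceMatrix_apply,
        Algebra.traceForm_apply]
  have hdv : Algebra.discr ℚ v = (2 : ℚ) ^ (2 * Fintype.card (Free.ChooseBasisIndex ℤ (𝓞 F))) *
      Algebra.norm ℚ d * (discr F : ℚ) ^ 2 := by
    rw [Algebra.discr_def, hT, Matrix.det_fromBlocks_zero₂₁, Matrix.det_smul, Matrix.det_smul,
      Matrix.det_mul, Matrix.det_transpose, ← Algebra.norm_eq_matrix_det B, ← Algebra.discr_def,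
      ← NumberField.coe_discr]
    ring
  -- compare with the integral basis of `M`
  have hcard : Fintype.card (Free.ChooseBasisIndex ℤ (𝓞 M)) =
      Fintype.card (Free.ChooseBasisIndex ℤ (𝓞 F) ⊕ Free.ChooseBasisIndex ℤ (𝓞 F)) := by
    rw [Fintype.card_sum, ← finrank_eq_card_basis (integralBasis M), ← finrank_eq_card_basis B,
      ← finrank_mul_finrank ℚ F M, h2]
    ring
  let e := Fintype.equivOfCardEq hcard
  let C := (integralBasis M).reindex e
  have hC : Algebra.discr ℚ C = (discr M : ℚ) := by
    rw [NumberField.coe_discr, ← Algebra.discr_reindex ℚ (integralBasis M) e, Basis.coe_reindex]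
  have hv := Algebra.discr_of_matrix_vecMul (A := ℚ) (⇑C) (C.toMatrix v)
  rw [Basis.toMatrix_map_vecMul, hC, hdv] at hv
  have hN : (Algebra.norm ℚ d : ℚ) ≠ 0 := Algebra.norm_ne_zero_iff.2 hd
  have hF : (discr F : ℚ) ≠ 0 := by exact_mod_cast NumberField.discr_ne_zero F
  have hP : (C.toMatrix v).det ≠ 0 := by
    intro h0
    rw [h0] at hv
    have : (2 : ℚ) ^ (2 * Fintype.card (Free.ChooseBasisIndex ℤ (𝓞 F))) * Algebra.norm ℚ d *
        (discr F : ℚ) ^ 2 ≠ 0 := by positivity
    apply this
    rw [hv]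
    ring
  set P : ℚ := (C.toMatrix v).det with hPd
  set n := Fintype.card (Free.ChooseBasisIndex ℤ (𝓞 F)) with hn'
  refine ⟨2 ^ n / |P|, by positivity, ?_⟩
  have h5 : |(discr M : ℚ)| = (discr F : ℚ) ^ 2 * |Algebra.norm ℚ d| * (2 ^ n / |P|) ^ 2 := by
    have h6 := congrArg abs hv
    rw [abs_mul, abs_mul, abs_mul, abs_pow, abs_pow, abs_pow, sq_abs, sq_abs, abs_of_pos (by norm_num : (0 : ℚ) < 2)] at h6
    have h7 : P ^ 2 ≠ 0 := pow_ne_zero 2 hP
    rw [div_pow, sq_abs]
    field_simp
    rw [← pow_mul, mul_comm n 2]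
    linarith
  have h8 := congrArg (fun x : ℚ => (x : ℝ)) h5
  push_cast at h8 ⊢
  exact h8

end Pool.Agent.L7h81.TW
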