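import Pool.Agent.L7h81.TW.Stm

/-!
# Project TW: the points of a twist over a finite field (TPT)
-/

set_option autoImplicit false
set_option linter.unusedSectionVars false

namespace Pool.Agent.L7h81.TW

open Pool.Agent.L7h15.BK (npt)

variable {k : Type} [Field k]

lemma tw_eq (a b d x : k) : (d * x) ^ 3 + a * d ^ 2 * (d * x) + b * d ^ 3 =
    d ^ 3 * (x ^ 3 + a * x + b) := by ring

lemma npt_sum [Fintype k] (a b : k) :
    npt a b = ∑ x : k, Nat.card {y : k // y ^ 2 = x ^ 3 + a * x + b} := by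
  classical
  unfold npt
  rw [← Nat.card_sigma]
  refine Nat.card_congr ⟨fun p => ⟨p.1.1, p.1.2, p.2⟩, fun p => ⟨(p.1, p.2.1), p.2.2⟩, fun _ => rfl,
    fun _ => rfl⟩

lemma npt_twist_sum [Fintype k] (a b : k) {d : k} (hd : d ≠ 0) :
    npt (a * d ^ 2) (b * d ^ 3) =
      ∑ x : k, Nat.card {y : k // y ^ 2 = d ^ 3 * (x ^ 3 + a * x + b)} := by
  classical
  rw [npt_sum]
  rw [← Equiv.sum_comp (Equiv.mulLeft₀ d hd)]
  refine Finset.sum_congr rfl fun x _ => ?_
  have : (Equiv.mulLeft₀ d hd) x = d * x := rfl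
  rw [this, tw_eq]

theorem s_TPT' : S_TPT := by
  intro k _ _ h2 a b d hd
  classical
  have : Fintype k := Fintype.ofFinite k
  constructor
  · rintro ⟨e, rfl⟩
    have he : e ≠ 0 := left_ne_zero_of_mul hd
    rw [npt_twist_sum a b hd, npt_sum]
    refine Finset.sum_congr rfl fun x _ => ?_
    refine Nat.card_congr ⟨fun y => ⟨y.1 / e ^ 3, ?_⟩, fun y => ⟨y.1 * e ^ 3, ?_⟩, fun y => ?_, fun y => ?_⟩
    · rw [div_pow, y.2]
      field_simp
    · rw [mul_pow, y.2]
      ring
    · ext
      exact div_mul_cancel₀ _ (pow_ne_zero 3 he)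
    · ext
      exact mul_div_cancel_right₀ _ (pow_ne_zero 3 he)
  · intro hns
    have hF : ringChar k ≠ 2 := fun h => h2 (by
      have := ringChar.Nat.cast_ringChar (R := k)
      rw [h] at this
      exact_mod_cast this)
    have hc : ∀ t : k, (Nat.card {y : k // y ^ 2 = t} : ℤ) = quadraticChar k t + 1 := by
      intro t
      rw [← quadraticChar_card_sqrts hF t, Nat.card_eq_fintype_card, Set.toFinset_card]
      rfl
    rw [npt_twist_sum a b hd, npt_sum, ← Finset.sum_add_distrib]
    have h1 : ∀ x : k, Nat.card {y : k // y ^ 2 = d ^ 3 * (x ^ 3 + a * x + b)} +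
        Nat.card {y : k // y ^ 2 = x ^ 3 + a * x + b} = 2 := by
      intro x
      have h3 : quadraticChar k (d ^ 3) = -1 := by
        rw [map_pow, quadraticChar_neg_one_iff_not_isSquare.2 hns]
        norm_num
      zify
      rw [hc, hc, map_mul, h3]
      ring
    rw [Finset.sum_congr rfl fun x _ => h1 x, Finset.sum_const, Finset.card_univ, smul_eq_mul,
      Nat.card_eq_fintype_card, mul_comm]

end Pool.Agent.L7h81.TW
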