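import Pool.Agent.L7h81.TW.Fin
import Pool.Agent.L7h81.TW.Tpt
import Pool.Agent.L7h81.TW.Dsq
import Pool.Agent.L7h15.TW.Loc
import Pool.Agent.L7h60.TW.Lst
import Pool.Agent.L7h65.TW.Omt

/-!
# Project TW: all parts together
-/

set_option autoImplicit false
set_option linter.unusedSectionVars false

namespace Pool.Agent.L7h81.TW

theorem p_DSQ : S_DSQ := s_DSQ'
theorem p_LOC : S_LOC := Pool.Agent.L7h15.TW.s_LOC
theorem p_LST : S_LST := Pool.Agent.L7h60.TW.s_LST s_TPT'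
theorem p_OMT : S_OMT := Pool.Agent.L7h65.TW.s_OMT
theorem p_OMX : S_OMX := Pool.Agent.L7h65.TW.s_OMX

end Pool.Agent.L7h81.TW
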