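import Pool.Agent.L7h81.TW.Val

/-!
# Project TW: assembly
-/

set_option autoImplicit false
set_option linter.unusedSectionVars false

namespace Pool.Agent.L7h81.TW

open NumberField NumberField.InfinitePlace IsDedekindDomain Filter Topology
open Pool.Agent.K4H55.BI (rs Prd ee kap kap_pos fv MF IQ BF ordK gen nu)
open Pool.Agent.K4H55.BK (Vals nu_card)
open Pool.Agent.K4H55.CX (br efx facF ord)
open Pool.Agent.W189.NF (aV eV)
open Pool.Agent.L7h15.BK (cv npt pol)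
open Pool.Agent.L7h15.SQ (up dsc rc_unique finite_dual card_dual_eq)
open Pool.Agent.L7h82.RL
open scoped ComplexConjugate

section alg

/-- the algebra of the periods -/
lemma tau_alg {A w dK P dF Nd ρ D t : ℝ} {N : ℕ} (hdK : 0 < dK) (hP : 0 < P)
    (hdF : 0 < dF) (hNd : 0 < Nd) (hρ : 0 < ρ) (hw : w = t * |w|)
    (hD : dK ^ N * D = dF * Nd * ρ ^ 2) :
    (A * w) ^ N / √D = t ^ N / (dF * ρ) * (√dF * P ^ N / √Nd) * (A * |w| * √dK / P) ^ N := by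
  have hs : √D = √dF * √Nd * ρ / √dK ^ N := by
    have h1 : D = dF * Nd * ρ ^ 2 / dK ^ N := by
      rw [← hD]
      field_simp
    have h2 : dK ^ N = (√dK ^ N) ^ 2 := by
      rw [← pow_mul, mul_comm N 2, pow_mul, Real.sq_sqrt hdK.le]
    rw [h1, h2]
    have h3 : dF * Nd * ρ ^ 2 / (√dK ^ N) ^ 2 = (√dF * √Nd * ρ / √dK ^ N) ^ 2 := by
      rw [div_pow, mul_pow, mul_pow, Real.sq_sqrt hdF.le, Real.sq_sqrt hNd.le]
    rw [h3, Real.sqrt_sq]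
    positivity
  have hk : √dK ≠ 0 := (Real.sqrt_pos.2 hdK).ne'
  have hf : √dF ≠ 0 := (Real.sqrt_pos.2 hdF).ne'
  have hn : √Nd ≠ 0 := (Real.sqrt_pos.2 hNd).ne'
  have hf2 : √dF * √dF = dF := Real.mul_self_sqrt hdF.le
  rw [hs]
  have e1 : (A * w) ^ N = A ^ N * t ^ N * |w| ^ N := by
    rw [mul_pow]
    nth_rewrite 1 [hw]
    rw [mul_pow]
    ring
  rw [e1, div_pow, mul_pow, mul_pow]
  nth_rewrite 2 [← hf2]
  field_simp

end alg

section chars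

variable {K F M : Type} [Field K] [NumberField K] [Field F] [NumberField F] [Algebra K F]
  [Field M] [NumberField M] [Algebra K M] [Algebra F M] [IsScalarTower K F M] [IsGalois K F] [IsGalois K M]

/-- the characters which come from `F` -/
noncomputable def infl (K F M : Type) [Field K] [Field F] [Algebra K F] [Field M] [Algebra K M] [Algebra F M]
    [IsScalarTower K F M] [IsGalois K F] [IsGalois K M] :
    ((F ≃ₐ[K] F) →* ℂˣ) →* ((M ≃ₐ[K] M) →* ℂˣ) :=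
  MonoidHom.compHom' (AlgEquiv.restrictNormalHom (F := K) (K₁ := M) F)

lemma infl_apply (ψ : (F ≃ₐ[K] F) →* ℂˣ) : infl K F M ψ = ψ.comp (AlgEquiv.restrictNormalHom F) := rfl

lemma infl_inj : Function.Injective (infl K F M) := by
  intro ψ ψ' he
  rw [infl_apply, infl_apply] at he
  apply MonoidHom.ext
  intro s
  obtain ⟨s', rfl⟩ := AlgEquiv.restrictNormalHom_surjective (F := K) (K₁ := F) M s
  exact congrArg (fun k : (M ≃ₐ[K] M) →* ℂˣ => k s') he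

/-- the characters which are not trivial on `Gal(M/F)` -/
lemma mem_infl (ψ : (M ≃ₐ[K] M) →* ℂˣ) :
    ψ ∈ (infl K F M).range ↔ ∀ g : M ≃ₐ[F] M, ψ (up K F g) = 1 := by
  constructor
  · rintro ⟨ψ', rfl⟩ g
    rw [infl_apply, MonoidHom.comp_apply, L7h15.SQ.res_up, map_one]
  · intro h
    have hker : (AlgEquiv.restrictNormalHom (F := K) (K₁ := M) F).ker ≤ ψ.ker := by
      intro g hg
      rw [MonoidHom.mem_ker] at hg ⊢
      have h1 : ∀ y : F, g (algebraMap F M y) = algebraMap F M y := by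
        intro y
        have h3 := AlgEquiv.restrictNormal_commutes g F y
        have h4 : (g.restrictNormal F) y = y := congrArg (fun t : F ≃ₐ[K] F => t y) hg
        rw [h4] at h3
        exact h3.symm
      let g' : M ≃ₐ[F] M := AlgEquiv.ofRingEquiv (f := g.toRingEquiv) h1
      have h2 : up K F g' = g := by
        ext x
        rfl
      rw [← h2]
      exact h g'
    have hsurj : Function.Surjective (AlgEquiv.restrictNormalHom (F := K) (K₁ := M) F) :=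
      AlgEquiv.restrictNormalHom_surjective M
    refine ⟨(AlgEquiv.restrictNormalHom (F := K) (K₁ := M) F).liftOfRightInverse
      (Function.surjInv hsurj) (Function.rightInverse_surjInv hsurj) ⟨ψ, hker⟩, ?_⟩
    apply MonoidHom.ext
    intro g
    exact MonoidHom.liftOfRightInverse_comp_apply _ _ (Function.rightInverse_surjInv hsurj) ⟨ψ, hker⟩ g

end chars

section fin

variable {K : Type} [Field K] [NumberField K] [hP : IsPrincipalIdealRing (𝓞 K)] {σ : K →+* ℂ}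
  {δ : K} {n : 𝓞 K} {c : Ideal (𝓞 K) → ℂ}

/-- the data of a quadratic twist: `K ⊂ F ⊂ M`, `M = F(t)`, `t² = d`, and the law of reciprocity for `F` and `M` -/
structure TD (n : 𝓞 K) (F M : Type) [Field F] [NumberField F] [Algebra K F] [Field M] [NumberField M]
    [Algebra K M] [Algebra F M] [IsGalois K F] [IsGalois K M] (d : 𝓞 F) (t : 𝓞 M)
    (𝔣F : ((F ≃ₐ[K] F) →* ℂˣ) → Ideal (𝓞 K)) (χF : ((F ≃ₐ[K] F) →* ℂˣ) → 𝓞 K → ℂ)
    (𝔣 : ((M ≃ₐ[K] M) →* ℂˣ) → Ideal (𝓞 K)) (χ : ((M ≃ₐ[K] M) →* ℂˣ) → 𝓞 K → ℂ) : Prop where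
  hab : ∀ s t : M ≃ₐ[K] M, s * t = t * s
  two : Module.finrank F M = 2
  sq : t ^ 2 = algebraMap (𝓞 F) (𝓞 M) d
  not : ∀ y : F, algebraMap F M y ≠ (t : M)
  rF : ∀ ψ, RC ψ (𝔣F ψ) (χF ψ)
  rM : ∀ ψ, RC ψ (𝔣 ψ) (χ ψ)
  lev : ∀ ψ, ∀ v : HeightOneSpectrum (𝓞 K), 𝔣 ψ ≤ v.asIdeal → n ∉ v.asIdeal
  dF : |(discr F : ℝ)| = |(discr K : ℝ)| ^ Module.finrank K F * ∏ᶠ ψ, (Ideal.absNorm (𝔣F ψ) : ℝ)
  dM : |(discr M : ℝ)| = |(discr K : ℝ)| ^ Module.finrank K M * ∏ᶠ ψ, (Ideal.absNorm (𝔣 ψ) : ℝ)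

lemma TD.d_ne {F M : Type} [Field F] [NumberField F] [Algebra K F] [Field M] [NumberField M]
    [Algebra K M] [Algebra F M] [IsGalois K F] [IsGalois K M] {d : 𝓞 F} {t : 𝓞 M}
    {𝔣F : ((F ≃ₐ[K] F) →* ℂˣ) → Ideal (𝓞 K)} {χF : ((F ≃ₐ[K] F) →* ℂˣ) → 𝓞 K → ℂ}
    {𝔣 : ((M ≃ₐ[K] M) →* ℂˣ) → Ideal (𝓞 K)} {χ : ((M ≃ₐ[K] M) →* ℂˣ) → 𝓞 K → ℂ}
    (h : TD n F M d t 𝔣F χF 𝔣 χ) : d ≠ 0 := by
  rintro rfl
  have h1 := h.sq
  rw [map_zero, sq_eq_zero_iff] at h1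
  refine h.not 0 ?_
  rw [map_zero, h1]
  rfl

open Classical in
/-- **the value of the twist** -/
theorem val_T (hLOC : S_LOC) (hLST : S_LST) (h : IQ K σ δ) (hf : BF σ δ n c) {a b : 𝓞 K}
    (hΔ : 4 * a ^ 3 + 27 * b ^ 2 ≠ 0)
    (hloc : ∀ v : HeightOneSpectrum (𝓞 K), c v.asIdeal = (aV (cv (a : K) (b : K)) v : ℂ) ∧
      (eV (cv (a : K) (b : K)) v : ℂ) = if n ∈ v.asIdeal then 0 else (Ideal.absNorm v.asIdeal : ℂ))
    {ω : ℂ} (hω : ∀ l ∈ Vals σ δ n c, ∃ j : ℤ, l = j * ω)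
    {F M : Type} [Field F] [NumberField F] [Algebra K F] [Field M] [NumberField M]
    [Algebra K M] [Algebra F M] [IsScalarTower K F M] [IsGalois K F] [IsGalois K M] {d : 𝓞 F} {t : 𝓞 M}
    {𝔣F : ((F ≃ₐ[K] F) →* ℂˣ) → Ideal (𝓞 K)} {χF : ((F ≃ₐ[K] F) →* ℂˣ) → 𝓞 K → ℂ}
    {𝔣 : ((M ≃ₐ[K] M) →* ℂˣ) → Ideal (𝓞 K)} {χ : ((M ≃ₐ[K] M) →* ℂˣ) → 𝓞 K → ℂ}
    (hT : TD n F M d t 𝔣F χF 𝔣 χ) :
    ∃ D : ℝ, 0 < D ∧ |(discr K : ℝ)| ^ Module.finrank K F * D * |(discr F : ℝ)| = |(discr M : ℝ)| ∧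
    (∃ x, CentralValue (cv (algebraMap K F (a : K) * (d : F) ^ 2) (algebraMap K F (b : K) * (d : F) ^ 3)) x) ∧
    ∃ q : ℚ, ∀ x,
      CentralValue (cv (algebraMap K F (a : K) * (d : F) ^ 2) (algebraMap K F (b : K) * (d : F) ^ 3)) x →
      x = (q : ℂ) * (kap (ordK h) * ω / nu (𝓞 K)) ^ Module.finrank K F / ((√D : ℝ) : ℂ) := by
  have habF : ∀ s t : F ≃ₐ[K] F, s * t = t * s := by
    intro s t
    obtain ⟨s', rfl⟩ := AlgEquiv.restrictNormalHom_surjective (F := K) (K₁ := F) M s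
    obtain ⟨t', rfl⟩ := AlgEquiv.restrictNormalHom_surjective (F := K) (K₁ := F) M t
    rw [← map_mul, ← map_mul, hT.hab]
  have hfinM := finite_dual hT.hab
  have : Fintype ((M ≃ₐ[K] M) →* ℂˣ) := Fintype.ofFinite _
  have hfinF := finite_dual habF
  have : Fintype ((F ≃ₐ[K] F) →* ℂˣ) := Fintype.ofFinite _
  obtain ⟨hmul, -, -⟩ := L7h60.RL.s_CLS K M hT.hab 𝔣 χ hT.rM
  set ℋ := (infl K F M).range with hℋ
  let e : ((F ≃ₐ[K] F) →* ℂˣ) ≃ ℋ := (MonoidHom.ofInjective infl_inj).toEquiv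
  have he : ∀ ψ, ((e ψ : ℋ) : (M ≃ₐ[K] M) →* ℂˣ) = ψ.comp (AlgEquiv.restrictNormalHom F) := fun ψ => rfl
  have hRF : ∀ ψ : (F ≃ₐ[K] F) →* ℂˣ, 𝔣F ψ = 𝔣 (e ψ) := by
    intro ψ
    have h1 := hT.rM (e ψ : (M ≃ₐ[K] M) →* ℂˣ)
    rw [he] at h1 ⊢
    exact (rc_unique (hT.rF ψ) (dsc F h1)).1
  set A : Finset ((M ≃ₐ[K] M) →* ℂˣ) := Finset.univ.filter (· ∉ ℋ) with hA
  have hAm : ∀ g, g ∈ A ↔ g ∉ ℋ := fun g => by rw [hA, Finset.mem_filter]; simp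
  have hAg : ∀ ψ, ψ ∈ A ↔ ∃ g : M ≃ₐ[F] M, ψ (up K F g) ≠ 1 := fun ψ => by
    rw [hAm, hℋ, mem_infl]
    push Not
    rfl
  choose G g1 g2 g3 using fun ψ => val_one h hf hω (hT.rM ψ).ch (hT.lev ψ)
  obtain ⟨r, hr0, hr⟩ := hLST hLOC K F M σ δ n a b c h hΔ hloc hT.hab hT.two d t hT.d_ne hT.sq hT.not 𝔣 χ hT.rM
    A hAg G (fun ψ _ => g1 ψ) (fun ψ _ => g2 ψ)
  obtain ⟨q, hq⟩ := val_A (c := c) h (fun ψ => (hT.rM ψ).ch) hmul (G := fun ψ => G ψ 1) ℋ A hAm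
    (fun ψ _ => g3 ψ)
  -- the number of the characters
  have hcard : A.card = Module.finrank K F := by
    have h1 : (Finset.univ : Finset ((M ≃ₐ[K] M) →* ℂˣ)).card = Module.finrank K M := by
      rw [Finset.card_univ, ← Nat.card_eq_fintype_card, card_dual_eq hT.hab]
    have h2 : (Finset.univ.filter (· ∈ ℋ)).card = Module.finrank K F := by
      have h3 : Nat.card ℋ = Module.finrank K F := by rw [← Nat.card_congr e, card_dual_eq habF]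
      rw [← h3, Nat.card_eq_fintype_card, Fintype.card_subtype]
    have h3 := Finset.card_filter_add_card_filter_not (s := (Finset.univ : Finset ((M ≃ₐ[K] M) →* ℂˣ)))
      (· ∈ ℋ)
    have h4 := Module.finrank_mul_finrank K F M
    rw [hT.two] at h4
    rw [h1, h2] at h3
    have h5 : A.card = (Finset.univ.filter fun g => ¬ g ∈ ℋ).card := rfl
    omega
  set D : ℝ := ∏ g ∈ A, (Ideal.absNorm (𝔣 g) : ℝ) with hD
  have hnN : ∀ g, (0 : ℝ) < (Ideal.absNorm (𝔣 g) : ℝ) := by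
    intro g
    have : Ideal.absNorm (𝔣 g) ≠ 0 := by
      rw [Ne, Ideal.absNorm_eq_zero_iff]
      exact (hT.rM g).ch.f0
    positivity
  refine ⟨D, Finset.prod_pos fun g _ => hnN g, ?_, ⟨_, (hr _).2 rfl⟩, r * q, fun x hx => ?_⟩
  · have h1 := hT.dM
    have h2 := hT.dF
    rw [finprod_eq_prod_of_fintype] at h1 h2
    have e5 : ∏ ψ, (Ideal.absNorm (𝔣F ψ) : ℝ) = ∏ g : ℋ, (Ideal.absNorm (𝔣 g) : ℝ) := by
      rw [← Equiv.prod_comp e (fun g : ℋ => (Ideal.absNorm (𝔣 g) : ℝ))]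
      exact Finset.prod_congr rfl fun ψ _ => by rw [hRF ψ]
    have h3 : ∏ g, (Ideal.absNorm (𝔣 g) : ℝ) = (∏ ψ, (Ideal.absNorm (𝔣F ψ) : ℝ)) * D := by
      rw [hD, hA, ← Finset.prod_filter_mul_prod_filter_not Finset.univ (· ∈ ℋ), e5]
      congr 1
      exact Finset.prod_subtype _ (fun g => by
        rw [Finset.mem_filter]
        simp only [Finset.mem_univ, true_and]
        exact MonoidHom.mem_range) _
    have h4 := Module.finrank_mul_finrank K F M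
    rw [hT.two] at h4
    rw [h1, h2, h3, ← h4, mul_two, pow_add]
    ring
  · rw [(hr x).1 hx]
    have hq' : ∏ ψ ∈ A, G ψ 1 = (q : ℂ) * (kap (ordK h) * ω / nu (𝓞 K)) ^ A.card /
      ((√D : ℝ) : ℂ) := hq
    rw [hq', hcard]
    push_cast
    ring

lemma real_ne {x : ℝ} (h : x ≠ 0) : ∃ t : ℚ, ((t : ℝ) = 1 ∨ (t : ℝ) = -1) ∧ x = t * |x| := by
  rcases abs_choice x with h2 | h2
  · exact ⟨1, Or.inl (by norm_num), by rw [h2]; push_cast; ring⟩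
  · exact ⟨-1, Or.inr (by norm_num), by rw [h2]; push_cast; ring⟩

/-- **one constant for the abelian extensions and the twists** -/
theorem fin_T (hLOC : S_LOC) (hLST : S_LST) (hDSQ : S_DSQ) (hOMT : S_OMT) (hOMX : S_OMX)
    (h : IQ K σ δ) (hf : BF σ δ n c) {a b : 𝓞 K} (hΔ : 4 * a ^ 3 + 27 * b ^ 2 ≠ 0)
    (hloc : ∀ v : HeightOneSpectrum (𝓞 K), c v.asIdeal = (aV (cv (a : K) (b : K)) v : ℂ) ∧
      (eV (cv (a : K) (b : K)) v : ℂ) =
        open Classical in if n ∈ v.asIdeal then 0 else (Ideal.absNorm v.asIdeal : ℂ))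
    {ω : ℂ} (hω' : ω ∈ AddSubgroup.closure (Vals σ δ n c))
    (hω : ∀ l ∈ AddSubgroup.closure (Vals σ δ n c), ∃ j : ℤ, l = j * ω) :
    ∃ τ : ℝ, 0 < τ ∧
      (∀ (F : Type) [Field F] [NumberField F] [Algebra K F] [IsGalois K F],
        (∀ s t : F ≃ₐ[K] F, s * t = t * s) →
        ∀ (𝔣 : ((F ≃ₐ[K] F) →* ℂˣ) → Ideal (𝓞 K)) (χ : ((F ≃ₐ[K] F) →* ℂˣ) → 𝓞 K → ℂ),
        (∀ ψ, RC ψ (𝔣 ψ) (χ ψ)) →
        (∀ ψ, ∀ v : HeightOneSpectrum (𝓞 K), 𝔣 ψ ≤ v.asIdeal → n ∉ v.asIdeal) →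
        |(discr F : ℝ)| = |(discr K : ℝ)| ^ Module.finrank K F * ∏ᶠ ψ, (Ideal.absNorm (𝔣 ψ) : ℝ) →
        (∃ x, CentralValue (cv (algebraMap K F (a : K)) (algebraMap K F (b : K))) x) ∧
        ∀ (x : ℂ) (Ω : ℝ), CentralValue (cv (algebraMap K F (a : K)) (algebraMap K F (b : K))) x →
          IsOm F (algebraMap K F (a : K)) (algebraMap K F (b : K)) Ω →
          ∃ q : ℚ, x = (q : ℂ) * Ω * (τ : ℂ) ^ Module.finrank K F) ∧
      (∀ (F M : Type) [Field F] [NumberField F] [Algebra K F] [Field M] [NumberField M]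
        [Algebra K M] [Algebra F M] [IsScalarTower K F M] [IsGalois K F] [IsGalois K M] (d : 𝓞 F) (t : 𝓞 M)
        (𝔣F : ((F ≃ₐ[K] F) →* ℂˣ) → Ideal (𝓞 K)) (χF : ((F ≃ₐ[K] F) →* ℂˣ) → 𝓞 K → ℂ)
        (𝔣 : ((M ≃ₐ[K] M) →* ℂˣ) → Ideal (𝓞 K)) (χ : ((M ≃ₐ[K] M) →* ℂˣ) → 𝓞 K → ℂ),
        TD n F M d t 𝔣F χF 𝔣 χ →
        (∃ x, CentralValue (cv (algebraMap K F (a : K) * (d : F) ^ 2) (algebraMap K F (b : K) * (d : F) ^ 3)) x) ∧
        ∀ (x : ℂ) (Ω : ℝ),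
          CentralValue (cv (algebraMap K F (a : K) * (d : F) ^ 2) (algebraMap K F (b : K) * (d : F) ^ 3)) x →
          IsOm F (algebraMap K F (a : K) * (d : F) ^ 2) (algebraMap K F (b : K) * (d : F) ^ 3) Ω →
          ∃ q : ℚ, x = (q : ℂ) * Ω * (τ : ℂ) ^ Module.finrank K F) := by
  classical
  have hω1 : ∀ l ∈ Vals σ δ n c, ∃ j : ℤ, l = j * ω := fun l hl =>
    hω l (AddSubgroup.subset_closure hl)
  have hωim : ω.im = 0 := real_closure (L7h53.RL.s_REAL K σ δ n c h hf fun v => ⟨_, (hloc v).1⟩) hω'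
  set A : ℝ := kap (ordK h) / (Nat.card (𝓞 K)ˣ : ℝ) with hA
  have hA0 : 0 < A := by
    have : 0 < Nat.card (𝓞 K)ˣ := by
      have h1 := K4H55.BI.nu_ne (ordK h)
      rw [nu_card h] at h1
      exact Nat.pos_of_ne_zero fun h2 => h1 (by rw [h2]; norm_num)
    have := kap_pos (ordK h)
    positivity
  have hAω : (kap (ordK h) : ℂ) * ω / nu (𝓞 K) = ((A * ω.re : ℝ) : ℂ) := by
    rw [nu_card h, hA]
    have : ω = (ω.re : ℂ) := by
      apply Complex.ext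
      · simp
      · rw [hωim]; simp
    rw [this]
    push_cast
    simp only [Complex.ofReal_re]
    ring
  have hdK : 0 < |(discr K : ℝ)| := by
    have : (discr K : ℝ) ≠ 0 := by exact_mod_cast discr_ne_zero K
    positivity
  have hdFp : ∀ (F : Type) [Field F] [NumberField F], 0 < |(discr F : ℝ)| := by
    intro F _ _
    have : (discr F : ℝ) ≠ 0 := by exact_mod_cast discr_ne_zero F
    positivity
  by_cases hL : ∃ L0 : PeriodPair, L0.g₂ = -4 * σ (a : K) ∧ L0.g₃ = -4 * σ (b : K)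
  swap
  · refine ⟨1, one_pos, fun F _ _ _ _ hab 𝔣 χ hR hn hdisc => ?_,
      fun F M _ _ _ _ _ _ _ _ _ _ d t 𝔣F χF 𝔣 χ hT => ?_⟩
    · obtain ⟨h1, q, hq⟩ := val_F h hf hΔ hloc hω1 hab hR hn
      refine ⟨h1, fun x Ω hx hO => (hL ((hOMX K σ δ h (a : K) (b : K) F 1 one_ne_zero).1 ⟨Ω, ?_⟩)).elim⟩
      simpa using hO
    · obtain ⟨D, -, -, h1, -⟩ := val_T hLOC hLST h hf hΔ hloc hω1 hT
      have hd0 : (d : F) ≠ 0 := fun h0 => hT.d_ne (RingOfIntegers.ext h0)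
      exact ⟨h1, fun x Ω hx hO => (hL ((hOMX K σ δ h (a : K) (b : K) F (d : F) hd0).1 ⟨Ω, hO⟩)).elim⟩
  obtain ⟨L0, hg2, hg3⟩ := hL
  set P : ℝ := |(L0.ω₁ * conj L0.ω₂).im| with hPd
  have hP0 : 0 < P := abs_pos.2 (im_ne L0)
  -- the common end
  have key : ∀ (F : Type) [Field F] [NumberField F] [Algebra K F] (q : ℚ) (x : ℂ) (Ω D Nd : ℝ) (s : ℝ) (ρ : ℚ),
      ω ≠ 0 → 0 < Nd → 0 < ρ → (s = 1 ∨ s = -1) →
      |(discr K : ℝ)| ^ Module.finrank K F * D = |(discr F : ℝ)| * Nd * (ρ : ℝ) ^ 2 →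
      x = (q : ℂ) * (kap (ordK h) * ω / nu (𝓞 K)) ^ Module.finrank K F / ((√D : ℝ) : ℂ) →
      Ω = s * (√|(discr F : ℝ)| * P ^ Module.finrank K F / √Nd) →
      ∃ q' : ℚ, x = (q' : ℂ) * Ω *
        ((A * |ω.re| * √|(discr K : ℝ)| / P : ℝ) : ℂ) ^ Module.finrank K F := by
    intro F _ _ _ q x Ω D Nd s ρ h0 hNd hρ hs hD hx hΩ
    have hre : ω.re ≠ 0 := fun h2 => h0 (Complex.ext h2 hωim)
    obtain ⟨t, -, ht⟩ := real_ne hre
    obtain ⟨s', hs'⟩ : ∃ s' : ℚ, (s' : ℝ) = s := by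
      rcases hs with rfl | rfl
      · exact ⟨1, by norm_num⟩
      · exact ⟨-1, by norm_num⟩
    have hss : s * s = 1 := by rcases hs with rfl | rfl <;> norm_num
    have hρ' : (0 : ℝ) < (ρ : ℝ) := by exact_mod_cast hρ
    have e1 := tau_alg (A := A) (w := ω.re) (N := Module.finrank K F) hdK hP0 (hdFp F) hNd hρ' ht hD
    obtain ⟨q', hq'⟩ : ∃ q' : ℚ, (q' : ℝ) = q * s' * (t ^ Module.finrank K F / (|(discr F : ℝ)| * ρ)) := by
      refine ⟨q * s' * (t ^ Module.finrank K F / (|(discr F : ℚ)| * ρ)), ?_⟩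
      push_cast
      rfl
    refine ⟨q', ?_⟩
    rw [hx, hAω]
    have hreal : (q : ℝ) * (A * ω.re) ^ Module.finrank K F / √D =
        (q' : ℝ) * Ω * (A * |ω.re| * √|(discr K : ℝ)| / P) ^ Module.finrank K F := by
      rw [hq', mul_div_assoc, e1, hΩ, hs']
      linear_combination (-(q : ℝ) * (t ^ Module.finrank K F / (|(discr F : ℝ)| * ρ) *
        (√|(discr F : ℝ)| * P ^ Module.finrank K F / √Nd) *
        (A * |ω.re| * √|(discr K : ℝ)| / P) ^ Module.finrank K F)) * hss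
    have := congrArg (fun r : ℝ => (r : ℂ)) hreal
    push_cast at this ⊢
    exact this
  refine ⟨if ω = 0 then 1 else A * |ω.re| * √|(discr K : ℝ)| / P, ?_,
    fun F _ _ _ _ hab 𝔣 χ hR hn hdisc => ?_, fun F M _ _ _ _ _ _ _ _ _ _ d t 𝔣F χF 𝔣 χ hT => ?_⟩
  · split_ifs with h0
    · exact one_pos
    · have h1 : ω.re ≠ 0 := fun h2 => h0 (Complex.ext h2 hωim)
      have h2 : 0 < |ω.re| := abs_pos.2 h1
      have h3 : 0 < √|(discr K : ℝ)| := Real.sqrt_pos.2 hdK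
      positivity
  · obtain ⟨h1, q, hq⟩ := val_F h hf hΔ hloc hω1 hab hR hn
    refine ⟨h1, fun x Ω hx hO => ?_⟩
    by_cases h0 : ω = 0
    · refine ⟨0, ?_⟩
      have hN0 : Module.finrank K F ≠ 0 := Module.finrank_pos.ne'
      rw [hq x hx, h0]
      simp [hN0]
    rw [if_neg h0]
    obtain ⟨s, hs, hΩ⟩ := om_eq h L0 hg2 hg3 hO
    exact key F q x Ω _ 1 s 1 h0 one_pos one_pos hs (by rw [hdisc]; norm_num) (hq x hx)
      (by rw [hΩ, Real.sqrt_one, div_one])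
  · obtain ⟨D, hD0, hD, h1, q, hq⟩ := val_T hLOC hLST h hf hΔ hloc hω1 hT
    refine ⟨h1, fun x Ω hx hO => ?_⟩
    by_cases h0 : ω = 0
    · refine ⟨0, ?_⟩
      have hN0 : Module.finrank K F ≠ 0 := Module.finrank_pos.ne'
      rw [hq x hx, h0]
      simp [hN0]
    rw [if_neg h0]
    have hd0 : (d : F) ≠ 0 := fun h0 => hT.d_ne (RingOfIntegers.ext h0)
    obtain ⟨s, hs, hΩ⟩ := hOMT K σ δ h (a : K) (b : K) L0 hg2 hg3 F (d : F) hd0 Ω hO
    obtain ⟨ρ, hρ, hM⟩ := hDSQ F M hT.two (d : F) (t : M) (by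
      have := congrArg (fun y : 𝓞 M => (y : M)) hT.sq
      exact this) hT.not
    have hNd : 0 < |((Algebra.norm ℚ (d : F) : ℚ) : ℝ)| := by
      have : Algebra.norm ℚ (d : F) ≠ 0 := Algebra.norm_ne_zero_iff.2 hd0
      have h2 : ((Algebra.norm ℚ (d : F) : ℚ) : ℝ) ≠ 0 := by exact_mod_cast this
      positivity
    refine key F q x Ω D _ s ρ h0 hNd hρ hs ?_ (hq x hx) hΩ
    have h2 := hdFp F
    apply mul_right_cancel₀ h2.ne'
    rw [hD, hM]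
    rw [← sq_abs (discr F : ℝ)]
    ring

end fin

end Pool.Agent.L7h81.TW
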