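import Pool.Agent.L7h81.TW.Asm
import Pool.Agent.L7h81.UR.Fin

/-!
# Project TW: the nonvanishing for the twists, and the uniform statements
-/

set_option autoImplicit false
set_option linter.unusedSectionVars false
set_option linter.unusedVariables false

namespace Pool.Agent.L7h81.TW

open NumberField NumberField.InfinitePlace IsDedekindDomain Filter Topology
open Pool.Agent.W189.NF (aV eV)
open Pool.Agent.K4H55.BI (IQ BF gen gen_span fv ordK)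
open Pool.Agent.K4H55.BK (Vals)
open Pool.Agent.K4H55.CX (efx)
open Pool.Agent.L7h15.BK (cv npt)
open Pool.Agent.L7h15.OA (exists_lam int_lam ch_dvd)
open Pool.Agent.L7h15.SQ (up dsc rc_unique finite_dual card_dual_eq)
open Pool.Agent.L7h81.UB
open Pool.Agent.L7h81.UR (cf cf_le pk_of norm_cf HR okR Rcd one_fieldR self_rcd om_ne fv_ne' inv_pr)
open Pool.Agent.L7h82.RL (PK RC CentralValue IsOm emb_two no_real im_ne s_PCK)
open scoped ComplexConjugate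

variable {K : Type} [Field K] [NumberField K] [hP : IsPrincipalIdealRing (𝓞 K)] {σ : K →+* ℂ}
  {δ : K} {n : 𝓞 K} {c : Ideal (𝓞 K) → ℂ}

/-- the conclusion for a twist -/
structure ConclT (a b : 𝓞 K) (F : Type) [Field F] [NumberField F] [Algebra K F] (d : 𝓞 F) : Prop where
  ex : ∃ x, CentralValue (cv (algebraMap K F (a : K) * (d : F) ^ 2) (algebraMap K F (b : K) * (d : F) ^ 3)) x
  ne : ∀ x, CentralValue (cv (algebraMap K F (a : K) * (d : F) ^ 2)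
    (algebraMap K F (b : K) * (d : F) ^ 3)) x → x ≠ 0
  all : ∀ (x₀ x : ℂ) (Ω₀ Ω : ℝ), CentralValue (cv (a : K) (b : K)) x₀ → IsOm K (a : K) (b : K) Ω₀ →
    CentralValue (cv (algebraMap K F (a : K) * (d : F) ^ 2) (algebraMap K F (b : K) * (d : F) ^ 3)) x →
    IsOm F (algebraMap K F (a : K) * (d : F) ^ 2) (algebraMap K F (b : K) * (d : F) ^ 3) Ω →
    ∃ q : ℚ, q ≠ 0 ∧ x / Ω = q * (x₀ / Ω₀) ^ Module.finrank K F
  per : (∃ Ω₀, IsOm K (a : K) (b : K) Ω₀) →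
    ∃ Ω, IsOm F (algebraMap K F (a : K) * (d : F) ^ 2) (algebraMap K F (b : K) * (d : F) ^ 3) Ω

/-- `M = F(t)`, `t² = d` -/
structure QM (F M : Type) [Field F] [NumberField F] [Field M] [NumberField M] [Algebra F M]
    (d : 𝓞 F) (t : 𝓞 M) : Prop where
  two : Module.finrank F M = 2
  sq : t ^ 2 = algebraMap (𝓞 F) (𝓞 M) d
  not : ∀ y : F, algebraMap F M y ≠ (t : M)

lemma per_T (hOMX : S_OMX) (h : IQ K σ δ) {a b : 𝓞 K} {F : Type} [Field F] [NumberField F] [Algebra K F]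
    {d : 𝓞 F} (hd : d ≠ 0) (h0 : ∃ Ω₀, IsOm K (a : K) (b : K) Ω₀) :
    ∃ Ω, IsOm F (algebraMap K F (a : K) * (d : F) ^ 2) (algebraMap K F (b : K) * (d : F) ^ 3) Ω := by
  have hd0 : (d : F) ≠ 0 := fun h0 => hd (RingOfIntegers.ext h0)
  rw [hOMX K σ δ h (a : K) (b : K) F (d : F) hd0, ← hOMX K σ δ h (a : K) (b : K) K 1 one_ne_zero]
  obtain ⟨Ω₀, hΩ⟩ := h0
  exact ⟨Ω₀, by simpa using hΩ⟩

open Classical in
/-- **the conclusion for a tuple** -/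
theorem concl_T (hLOC : S_LOC) (hLST : S_LST) (hDSQ : S_DSQ) (hOMT : S_OMT) (hOMX : S_OMX)
    (h : IQ K σ δ) (hf : BF σ δ n c)
    {l k : ℕ} (hl : l.Prime) {a b : 𝓞 K} (hΔ : 4 * a ^ 3 + 27 * b ^ 2 ≠ 0)
    (hloc : ∀ v : HeightOneSpectrum (𝓞 K), c v.asIdeal = (aV (cv (a : K) (b : K)) v : ℂ) ∧
      (eV (cv (a : K) (b : K)) v : ℂ) = if n ∈ v.asIdeal then 0 else (Ideal.absNorm v.asIdeal : ℂ))
    {ω : ℂ} (hω' : ω ∈ AddSubgroup.closure (Vals σ δ n c))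
    (hω : ∀ l ∈ AddSubgroup.closure (Vals σ δ n c), ∃ j : ℤ, l = j * ω)
    (h0 : fv (ordK h) (fun x => c (Ideal.span {x})) 0 ≠ 0)
    {r : ℕ} {e : Fin r → FamK K} (H1 : Subgroup (FamK K))
    (he : ∀ j, e j ∈ H1) (hpow : ∀ x ∈ H1, x ^ (l ^ k) = 1) (hfin : ∀ x ∈ H1, {v | x v ≠ 1}.Finite)
    (hunit : ∀ x ∈ H1, ∀ u : 𝓞 K, IsUnit u → va x u = 1)
    (hadm : ∀ x ∈ H1, ∀ v : HeightOneSpectrum (𝓞 K), x v ≠ 1 →
      2 * (4 * a ^ 3 + 27 * b ^ 2) ∉ v.asIdeal)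
    (hnv : ∀ J : Fin r → ℕ, btK (ordK h) (fv (ordK h) (fun x => c (Ideal.span {x})))
      (∏ j, e j ^ J j) ≠ 0)
    {F M : Type} [Field F] [NumberField F] [Algebra K F] [Field M] [NumberField M]
    [Algebra K M] [Algebra F M] [IsScalarTower K F M] [IsGalois K F] [IsGalois K M] {d : 𝓞 F} {t : 𝓞 M}
    (hQ : QM F M d t) (hab : ∀ s t : M ≃ₐ[K] M, s * t = t * s)
    {EF : ((F ≃ₐ[K] F) →* ℂˣ) → FamK K} (hEF : Rcd F e EF)
    {E : ((M ≃ₐ[K] M) →* ℂˣ) → FamK K} (hE : Rcd M e E) :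
    ConclT a b F d := by
  classical
  have habF : ∀ s t : F ≃ₐ[K] F, s * t = t * s := by
    intro s t
    obtain ⟨s', rfl⟩ := AlgEquiv.restrictNormalHom_surjective (F := K) (K₁ := F) M s
    obtain ⟨t', rfl⟩ := AlgEquiv.restrictNormalHom_surjective (F := K) (K₁ := F) M t
    rw [← map_mul, ← map_mul, hab]
  obtain ⟨hR, hn, -⟩ := one_fieldR h hf hl hΔ hloc H1 he hpow hfin hunit hadm hnv hab hE
  obtain ⟨hRF, hnF, -⟩ := one_fieldR h hf hl hΔ hloc H1 he hpow hfin hunit hadm hnv habF hEF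
  have hK1 : ∀ t : K ≃ₐ[K] K, t = 1 := fun t => AlgEquiv.ext fun x => t.commutes x
  have habK : ∀ s t : K ≃ₐ[K] K, s * t = t * s := fun s t => by rw [hK1 s, hK1 t]
  obtain ⟨hR', hn', hne'⟩ := one_fieldR h hf hl hΔ hloc (e := fun _ : Fin 0 => (1 : FamK K)) H1
    (fun j => j.elim0) hpow hfin hunit hadm (fun J => by
      have : ∏ j : Fin 0, (1 : FamK K) ^ J j = 1 := by simp
      rw [this, btK_one]
      exact h0) (F := K) habK (self_rcd 0 _)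
  have hT : TD n F M d t (fun ψ => cf (sp (EF ψ))) (fun ψ => vl (EF ψ) (sp (EF ψ)))
      (fun ψ => cf (sp (E ψ))) (fun ψ => vl (E ψ) (sp (E ψ))) := by
    refine ⟨hab, hQ.two, hQ.sq, hQ.not, hRF, hR, hn, ?_, ?_⟩
    · refine hEF.disc.trans ?_
      congr 1
      exact finprod_congr fun ψ => by rw [norm_cf]
    · refine hE.disc.trans ?_
      congr 1
      exact finprod_congr fun ψ => by rw [norm_cf]
  -- the nonvanishing
  choose J hJ using hE.gens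
  have hEH : ∀ ψ, E ψ ∈ H1 := fun ψ => by
    rw [hJ]
    exact prod_pow_mem (G := FamK K) H1 e he (J ψ)
  have hG2 : ∀ ψ, Gd2 n (sp (E ψ)) := fun ψ v hv => by
    have h3 := hadm _ (hEH ψ) v ((mem_sp (hfin _ (hEH ψ)) v).1 hv)
    exact ⟨fun h4 => h3 (v.asIdeal.mul_mem_right _ h4), (loc_lev hloc v h3).1⟩
  have hinv : ∀ ψ, (E ψ)⁻¹ = ∏ j, e j ^ (J ψ j * (l ^ k - 1)) := fun ψ => by
    rw [hJ]
    exact inv_pr (G := FamK K) (pow_pos hl.pos k) e (J ψ) (by rw [← hJ]; exact hpow _ (hEH ψ))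
  choose G g1 g2 g3 using fun ψ => nonv h hf hl (hpow _ (hEH ψ)) (hfin _ (hEH ψ))
    (hunit _ (hEH ψ)) (hG2 ψ) (by rw [hinv]; exact hnv _)
  have hfinG := finite_dual hab
  have : Fintype ((M ≃ₐ[K] M) →* ℂˣ) := Fintype.ofFinite _
  obtain ⟨r, hr0, hr⟩ := hLST hLOC K F M σ δ n a b c h hΔ hloc hab hQ.two d t hT.d_ne hQ.sq hQ.not
    (fun ψ => cf (sp (E ψ))) (fun ψ => vl (E ψ) (sp (E ψ))) hR
    (Finset.univ.filter fun ψ => ∃ g : M ≃ₐ[F] M, ψ (up K F g) ≠ 1)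
    (fun ψ => by rw [Finset.mem_filter]; simp) G (fun ψ _ => g1 ψ) (fun ψ _ => g2 ψ)
  have hne : ∀ x, CentralValue (cv (algebraMap K F (a : K) * (d : F) ^ 2)
      (algebraMap K F (b : K) * (d : F) ^ 3)) x → x ≠ 0 := fun x hx => by
    rw [(hr x).1 hx]
    exact mul_ne_zero (by exact_mod_cast hr0) (Finset.prod_ne_zero_iff.2 fun ψ _ => g3 ψ)
  obtain ⟨τ, hτ, hf1, hf2⟩ := fin_T hLOC hLST hDSQ hOMT hOMX h hf hΔ hloc hω' hω
  obtain ⟨k1, k2⟩ := hf2 F M d t _ _ _ _ hT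
  obtain ⟨k1', k2'⟩ := hf1 K habK _ _ hR' hn' (by
    refine (self_rcd 0 (fun _ : Fin 0 => (1 : FamK K))).disc.trans ?_
    congr 1
    refine finprod_congr fun ψ => ?_
    rw [norm_cf])
  refine ⟨k1, hne, fun x₀ x Ω₀ Ω hx₀ hΩ₀ hx hΩ => ?_, per_T hOMX h hT.d_ne⟩
  have hx1 := hne x hx
  have hx2 : x₀ ≠ 0 := hne' x₀ hx₀
  obtain ⟨q, hq⟩ := k2 x Ω hx hΩ
  obtain ⟨q', hq'⟩ := k2' x₀ Ω₀ hx₀ hΩ₀
  rw [Module.finrank_self, pow_one] at hq'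
  have hτ0 : (τ : ℂ) ≠ 0 := by exact_mod_cast hτ.ne'
  have hq0 : (q : ℂ) ≠ 0 := fun h1 => hx1 (by rw [hq, h1]; ring)
  have hq0' : (q' : ℂ) ≠ 0 := fun h1 => hx2 (by rw [hq', h1]; ring)
  have hΩ1 : (Ω : ℂ) ≠ 0 := fun h1 => hx1 (by rw [hq, h1]; ring)
  have hΩ1' : (Ω₀ : ℂ) ≠ 0 := fun h1 => hx2 (by rw [hq', h1]; ring)
  refine ⟨q / q' ^ Module.finrank K F, ?_, ?_⟩
  · have h1 : q ≠ 0 := by exact_mod_cast hq0
    have h2 : q' ≠ 0 := by exact_mod_cast hq0'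
    exact div_ne_zero h1 (pow_ne_zero _ h2)
  · rw [hq, hq']
    push_cast
    have e1 : (q' : ℂ) * Ω₀ * τ / Ω₀ = q' * τ := by field_simp
    rw [e1, mul_pow]
    field_simp

section main

open Classical in
/-- **Uniform proportions.** -/
theorem uniT (hLOC : S_LOC) (hLST : S_LST) (hDSQ : S_DSQ) (hOMT : S_OMT) (hOMX : S_OMX)
    (h : IQ K σ δ) {m : ℕ} (a b n : Fin m → 𝓞 K)
    (c : Fin m → Ideal (𝓞 K) → ℂ) (hΔ : ∀ i, 4 * a i ^ 3 + 27 * b i ^ 2 ≠ 0)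
    (hf : ∀ i, BF σ δ (n i) (c i))
    (hloc : ∀ i, ∀ v : HeightOneSpectrum (𝓞 K),
      c i v.asIdeal = (aV (cv (a i : K) (b i : K)) v : ℂ) ∧
      (eV (cv (a i : K) (b i : K)) v : ℂ) =
        if n i ∈ v.asIdeal then 0 else (Ideal.absNorm v.asIdeal : ℂ))
    (hω : ∀ i, ∃ ω ∈ AddSubgroup.closure (Vals σ δ (n i) (c i)),
      ∀ l ∈ AddSubgroup.closure (Vals σ δ (n i) (c i)), ∃ j : ℤ, l = j * ω)
    (h0 : ∀ i, ∃ x, CentralValue (cv (a i : K) (b i : K)) x ∧ x ≠ 0)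
    {l : ℕ} (hl : l.Prime) (k r : ℕ) :
    ∃ V : ℕ, ∀ H : Subgroup (FamK K), HR l k a b H →
      ∃ KK : Finset (Fin r → FamK K), KK.card ≤ 2 ^ V ∧ (∀ x ∈ KK, ∀ j, x j ∈ H) ∧
        ∀ e : Fin r → FamK K, (∀ j, e j ∈ H) → ∃ x ∈ KK,
          ∀ (F M : Type) [Field F] [NumberField F] [Algebra K F] [Field M] [NumberField M]
            [Algebra K M] [Algebra F M] [IsScalarTower K F M] [IsGalois K F] [IsGalois K M] (d : 𝓞 F) (t : 𝓞 M),
            QM F M d t → (∀ s t : M ≃ₐ[K] M, s * t = t * s) →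
            (∃ E, Rcd F (fun j => e j * x j) E) → (∃ E, Rcd M (fun j => e j * x j) E) →
            ∀ i, ConclT (a i) (b i) F d := by
  classical
  rcases Nat.eq_zero_or_pos m with hm | hm
  · subst hm
    refine ⟨0, fun H _ => ⟨{1}, by simp, fun x hx j => ?_, fun e _ => ⟨1, Finset.mem_singleton_self 1,
      fun F M _ _ _ _ _ _ _ _ _ _ d t _ _ _ _ i => i.elim0⟩⟩⟩
    rw [Finset.mem_singleton.1 hx]
    exact H.one_mem
  obtain ⟨lam, hlam, hmemL⟩ := exists_lam hl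
  choose C w κ κW hN using fun i => (hf i).newf h
  have hMG := fun i => (hN i).mg
  have hfv : ∀ i, fv (ordK h) (fun x => c i (Ideal.span {x})) 0 ≠ 0 := fun i => by
    obtain ⟨x, hx, hx0⟩ := h0 i
    exact fv_ne' h (hf i) (hloc i) hx hx0
  obtain ⟨V, hV⟩ := tuplesK (nn := n) (cc := fun i x => c i (Ideal.span {x})) hMG hfv hl k lam hlam
    hmemL r
  refine ⟨V, fun H hH => ?_⟩
  obtain ⟨KK, h4, h5, h6⟩ := hV H (okR hm hloc hl hlam hmemL hH)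
  refine ⟨KK, h4, h5, fun e he => ?_⟩
  obtain ⟨x, hx, h7⟩ := h6 e he
  refine ⟨x, hx, fun F M _ _ _ _ _ _ _ _ _ _ d t hQ hab hEF hE i => ?_⟩
  obtain ⟨EF, hEF⟩ := hEF
  obtain ⟨E, hE⟩ := hE
  obtain ⟨ω, hω1, hω2⟩ := hω i
  exact concl_T hLOC hLST hDSQ hOMT hOMX h (hf i) hl (hΔ i) (hloc i) hω1 hω2 (hfv i) H
    (fun j => H.mul_mem (he j) (h5 x hx j)) hH.pow hH.fin hH.unit
    (fun y hy v hv => (hH.adm y hy v hv i).1) (fun J => h7 J i) hQ hab hEF hE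

open Classical in
/-- **Infinite groups.** -/
theorem infT (hLOC : S_LOC) (hLST : S_LST) (hDSQ : S_DSQ) (hOMT : S_OMT) (hOMX : S_OMX)
    (h : IQ K σ δ) {m : ℕ} (a b n : Fin m → 𝓞 K)
    (c : Fin m → Ideal (𝓞 K) → ℂ) (hΔ : ∀ i, 4 * a i ^ 3 + 27 * b i ^ 2 ≠ 0)
    (hf : ∀ i, BF σ δ (n i) (c i))
    (hloc : ∀ i, ∀ v : HeightOneSpectrum (𝓞 K),
      c i v.asIdeal = (aV (cv (a i : K) (b i : K)) v : ℂ) ∧
      (eV (cv (a i : K) (b i : K)) v : ℂ) =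
        if n i ∈ v.asIdeal then 0 else (Ideal.absNorm v.asIdeal : ℂ))
    (hω : ∀ i, ∃ ω ∈ AddSubgroup.closure (Vals σ δ (n i) (c i)),
      ∀ l ∈ AddSubgroup.closure (Vals σ δ (n i) (c i)), ∃ j : ℤ, l = j * ω)
    (h0 : ∀ i, ∃ x, CentralValue (cv (a i : K) (b i : K)) x ∧ x ≠ 0)
    {l : ℕ} (hl : l.Prime) (k : ℕ) (H : Subgroup (FamK K)) (hH : HR l k a b H)
    (hinf : (H : Set (FamK K)).Infinite) :
    ∃ H0 : Subgroup (FamK K), H0 ≤ H ∧ (H0 : Set (FamK K)).Infinite ∧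
      ∀ (r : ℕ) (e : Fin r → FamK K), (∀ j, e j ∈ H0) →
          ∀ (F M : Type) [Field F] [NumberField F] [Algebra K F] [Field M] [NumberField M]
            [Algebra K M] [Algebra F M] [IsScalarTower K F M] [IsGalois K F] [IsGalois K M] (d : 𝓞 F) (t : 𝓞 M),
            QM F M d t → (∀ s t : M ≃ₐ[K] M, s * t = t * s) →
            (∃ E, Rcd F e E) → (∃ E, Rcd M e E) → ∀ i, ConclT (a i) (b i) F d := by
  classical
  rcases Nat.eq_zero_or_pos m with hm | hm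
  · subst hm
    exact ⟨H, le_rfl, hinf, fun r e _ F M _ _ _ _ _ _ _ _ _ _ d t _ _ _ _ i => i.elim0⟩
  obtain ⟨lam, hlam, hmemL⟩ := exists_lam hl
  choose C w κ κW hN using fun i => (hf i).newf h
  have hMG := fun i => (hN i).mg
  have hfv : ∀ i, fv (ordK h) (fun x => c i (Ideal.span {x})) 0 ≠ 0 := fun i => by
    obtain ⟨x, hx, hx0⟩ := h0 i
    exact fv_ne' h (hf i) (hloc i) hx hx0
  obtain ⟨H0, h4, h5, h6⟩ := infiniteK (nn := n) (cc := fun i x => c i (Ideal.span {x})) hMG hfv hl k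
    lam hlam hmemL H (okR hm hloc hl hlam hmemL hH) hinf
  refine ⟨H0, h4, h5, fun r e he F M _ _ _ _ _ _ _ _ _ _ d t hQ hab hEF hE i => ?_⟩
  obtain ⟨EF, hEF⟩ := hEF
  obtain ⟨E, hE⟩ := hE
  obtain ⟨ω, hω1, hω2⟩ := hω i
  exact concl_T hLOC hLST hDSQ hOMT hOMX h (hf i) hl (hΔ i) (hloc i) hω1 hω2 (hfv i) H
    (fun j => h4 (he j)) hH.pow hH.fin hH.unit
    (fun y hy v hv => (hH.adm y hy v hv i).1)
    (fun J => h6 _ (prod_pow_mem (G := FamK K) H0 e he J) i) hQ hab hEF hE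

end main

end Pool.Agent.L7h81.TW
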