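import Pool.Agent.L7h81.TW.Stm

/-!
# Project TW: the values of the twists over the complement of a subgroup
-/

set_option autoImplicit false
set_option linter.unusedSectionVars false

namespace Pool.Agent.L7h81.TW

open NumberField IsDedekindDomain Filter Topology
open Pool.Agent.K4H55.BI (rs Prd ee kap fv MF IQ BF ordK gen nu)
open Pool.Agent.K4H55.BK (Vals)
open Pool.Agent.K4H55.CX (br efx facF ord)
open Pool.Agent.L7h82.RL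
open scoped ComplexConjugate

section grp

variable {K : Type} [Field K] [NumberField K] [hP : IsPrincipalIdealRing (𝓞 K)] {σ : K →+* ℂ}
  {δ : K} {n : 𝓞 K} {c : Ideal (𝓞 K) → ℂ}
variable {𝒢 : Type} [CommGroup 𝒢] [Fintype 𝒢] {𝔣 : 𝒢 → Ideal (𝓞 K)} {χ : 𝒢 → 𝓞 K → ℂ}

/-- the complement of a subgroup is stable under powers -/
lemma compl_pow (ℋ : Subgroup 𝒢) {g : 𝒢} (hg : g ∉ ℋ) {k : ℕ} (hk : k.Coprime (Nat.card 𝒢)) :
    g ^ k ∉ ℋ := by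
  intro h1
  apply hg
  obtain ⟨m, hm⟩ := exists_pow_eq_self_of_coprime (hk.coprime_dvd_right (orderOf_dvd_natCard g))
  rw [← hm]
  exact ℋ.pow_mem h1 m

open Classical in
/-- **the product of the values over the complement of a subgroup** -/
theorem val_A (h : IQ K σ δ) {ω : ℂ} (hPK : ∀ g, PK (𝔣 g) (χ g))
    (hmul : ∀ g h x, χ g x ≠ 0 → χ h x ≠ 0 → χ (g * h) x = χ g x * χ h x) {G : 𝒢 → ℂ}
    (ℋ : Subgroup 𝒢) (A : Finset 𝒢) (hA : ∀ g, g ∈ A ↔ g ∉ ℋ)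
    (hG : ∀ g ∈ A, G g = (kap (ordK h) * ω / nu (𝓞 K)) *
      (sZ h c ω (𝔣 g) (χ g) / gm (ordK h) (gn (𝔣 g)) (br (χ g)))) :
    ∃ q : ℚ, ∏ g ∈ A, G g = (q : ℂ) * (kap (ordK h) * ω / nu (𝓞 K)) ^ A.card /
      ((√(∏ g ∈ A, (Ideal.absNorm (𝔣 g) : ℝ)) : ℝ) : ℂ) := by
  classical
  have hAf : A = Finset.univ.filter (· ∉ ℋ) := by
    ext g
    rw [hA, Finset.mem_filter]
    simp
  have hsplit : ∀ f : 𝒢 → ℂ, ∏ g, f g = (∏ g : ℋ, f g) * ∏ g ∈ A, f g := by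
    intro f
    rw [hAf, ← Finset.prod_filter_mul_prod_filter_not Finset.univ (· ∈ ℋ)]
    congr 1
    exact Finset.prod_subtype _ (fun g => by simp) _
  have hsplitR : ∀ f : 𝒢 → ℝ, ∏ g, f g = (∏ g : ℋ, f g) * ∏ g ∈ A, f g := by
    intro f
    rw [hAf, ← Finset.prod_filter_mul_prod_filter_not Finset.univ (· ∈ ℋ)]
    congr 1
    exact Finset.prod_subtype _ (fun g => by simp) _
  have hAk : ∀ g ∈ A, ∀ k : ℕ, k.Coprime (Nat.card 𝒢) → g ^ k ∈ A := fun g hg k hk =>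
    (hA _).2 (compl_pow ℋ ((hA g).1 hg) hk)
  obtain ⟨k, hk⟩ := (L7h50.RL.s_RAT L7h50.RL.s_CYC L7h50.RL.s_POW K 𝒢 𝔣 χ hPK hmul
    A hAk).1 (fun 𝔣 => rs (ordK h) (gn 𝔣)) (Zf h c ω)
  have hk' : ∏ g ∈ A, sZ h c ω (𝔣 g) (χ g) = (k : ℂ) := hk
  obtain ⟨e, he, hgs⟩ := L7h50.RL.s_GS s_PCK s_GM L7h50.RL.s_POW K σ δ h 𝒢 𝔣 χ hPK hmul
  obtain ⟨e', he', hgs'⟩ := L7h50.RL.s_GS s_PCK s_GM L7h50.RL.s_POW K σ δ h ℋ (fun g => 𝔣 g)
    (fun g => χ g) (fun g => hPK g) (fun g g' x h1 h2 => hmul g g' x h1 h2)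
  have hnN : ∀ g, (0 : ℝ) < (Ideal.absNorm (𝔣 g) : ℝ) := by
    intro g
    have : Ideal.absNorm (𝔣 g) ≠ 0 := by
      rw [Ne, Ideal.absNorm_eq_zero_iff]
      exact (hPK g).f0
    positivity
  set DH : ℝ := ∏ g : ℋ, (Ideal.absNorm (𝔣 g) : ℝ) with hDH
  set DA : ℝ := ∏ g ∈ A, (Ideal.absNorm (𝔣 g) : ℝ) with hDA
  have hDH0 : 0 < DH := Finset.prod_pos fun g _ => hnN g
  have hDA0 : 0 < DA := Finset.prod_pos fun g _ => hnN g
  have hD : √(∏ g, (Ideal.absNorm (𝔣 g) : ℝ)) = √DH * √DA := by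
    rw [hsplitR, Real.sqrt_mul hDH0.le]
  have hsH : (√DH : ℂ) ≠ 0 := by exact_mod_cast (Real.sqrt_pos.2 hDH0).ne'
  have hsA : (√DA : ℂ) ≠ 0 := by exact_mod_cast (Real.sqrt_pos.2 hDA0).ne'
  rw [hsplit, hgs', hD] at hgs
  obtain ⟨e1, he1, he1'⟩ : ∃ e1 : ℚ, (e1 : ℝ) = e ∧ e1 * e1 = 1 := by
    rcases he with rfl | rfl
    · exact ⟨1, by norm_num, by norm_num⟩
    · exact ⟨-1, by norm_num, by norm_num⟩
  obtain ⟨e2, he2, he2'⟩ : ∃ e2 : ℚ, (e2 : ℝ) = e' ∧ e2 * e2 = 1 := by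
    rcases he' with rfl | rfl
    · exact ⟨1, by norm_num, by norm_num⟩
    · exact ⟨-1, by norm_num, by norm_num⟩
  have he10 : (e1 : ℂ) ≠ 0 := by
    have : e1 ≠ 0 := fun h0 => by rw [h0] at he1'; norm_num at he1'
    exact_mod_cast this
  have he20 : (e2 : ℂ) ≠ 0 := by
    have : e2 ≠ 0 := fun h0 => by rw [h0] at he2'; norm_num at he2'
    exact_mod_cast this
  have hgA : ∏ g ∈ A, gm (ordK h) (gn (𝔣 g)) (br (χ g)) = (e1 : ℂ) / e2 * (√DA : ℂ) := by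
    rw [← he1, ← he2] at hgs
    push_cast at hgs
    have h1 : (e2 : ℂ) * (√DH : ℂ) * ∏ g ∈ A, gm (ordK h) (gn (𝔣 g)) (br (χ g)) =
        (e1 : ℂ) * ((√DH : ℂ) * (√DA : ℂ)) := hgs
    have h2 : (e2 : ℂ) * (√DH : ℂ) ≠ 0 := mul_ne_zero he20 hsH
    apply mul_left_cancel₀ h2
    rw [h1]
    field_simp
  refine ⟨k * (e2 / e1), ?_⟩
  rw [Finset.prod_congr rfl hG, Finset.prod_mul_distrib, Finset.prod_const, Finset.prod_div_distrib,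
    hk', hgA]
  push_cast
  field_simp

end grp

end Pool.Agent.L7h81.TW
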